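import Pool.Agent.L0h54.VR.Stm

set_option autoImplicit false

/-! Module BLK: the large sieve for the dyadic block sums of the second elementary symmetric sums. -/

namespace Pool.Agent.L0h66.VR

open Finset
open scoped Classical
open Pool.Agent.L0h54.VR
open Pool.Agent.L0h54.RM (Wn mem_Wn)
open Pool.Agent.L0h54.GC (SW ff es CC sqi sqi_nonneg ls_fam es_ff)
open Pool.Agent.H306R2.RZ (js LSB)
open Pool.Agent.L0h54.CL (Qd2 sum_blocks)

lemma CC_nonneg (j L a b : ℕ) : 0 ≤ CC j L a b :=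
  sum_nonneg fun _ _ => sum_nonneg fun _ _ => sqi_nonneg _

/-- the large sieve for a set of window positions -/
theorem blk_one (sg : ℕ → ℝ) (hsg : ∀ n, |sg n| = 1) (N L j Q M : ℕ) (B : ℝ) (hB : 0 ≤ B)
    (hls : LSB M Q B) (hN : 1 ≤ N) (hLN : L ≤ N) (hM : (3 * N) ^ j ≤ M) (P : Finset ℕ)
    (hP : ∀ l ∈ P, l.Prime ∧ 3 * N < l ∧ l ≤ Q) (A : Finset ℕ) (hA : A ⊆ Ico N (2 * N)) :
    ∑ l ∈ P, (∑ a ∈ A, es (ff sg l) (Wn a L) j) ^ 2 ≤
      B * ∑ a ∈ A, ∑ b ∈ A, CC j L a b := by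
  obtain ⟨I, hI⟩ : ∃ I : Finset ((_ : ℕ) × Finset ℕ), I = A.sigma
    (fun a => (Wn a L).powersetCard j) := ⟨_, rfl⟩
  obtain ⟨v, hv⟩ : ∃ v : ((_ : ℕ) × Finset ℕ) → ℕ, v = fun x => ∏ n ∈ x.2, n := ⟨_, rfl⟩
  obtain ⟨c, hc⟩ : ∃ c : ((_ : ℕ) × Finset ℕ) → ℝ, c = fun x => ∏ n ∈ x.2, sg n := ⟨_, rfl⟩
  have hmemI : ∀ x ∈ I, x.1 ∈ A ∧ x.2 ⊆ Wn x.1 L ∧ x.2.card = j := by
    intro x hx
    rw [hI, mem_sigma, mem_powersetCard] at hx
    exact hx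
  have hrange : ∀ x ∈ I, ∀ n ∈ x.2, 1 ≤ n ∧ n ≤ 3 * N := by
    intro x hx n hn
    obtain ⟨h1, h2, h3⟩ := hmemI x hx
    have h1' := mem_Ico.mp (hA h1)
    have := mem_Wn.mp (h2 hn)
    omega
  have h1 := ls_fam hB hls I v c P (by
    intro l hl
    obtain ⟨p1, p2, p3⟩ := hP l hl
    refine ⟨p1, by omega, p3, ?_⟩
    intro x hx hdvd
    rw [hv] at hdvd
    obtain ⟨n, hn, hln⟩ := (Prime.dvd_finsetProd_iff p1.prime _).mp hdvd
    have := hrange x hx n hn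
    have := Nat.le_of_dvd (by omega) hln
    omega) (by
    intro x hx
    rw [hv]
    refine ⟨?_, ?_⟩
    · show 0 < ∏ n ∈ x.2, n
      exact prod_pos fun n hn => (hrange x hx n hn).1
    refine le_trans ?_ hM
    have h2 := prod_le_pow_card x.2 (fun n => n) (3 * N) (fun n hn => (hrange x hx n hn).2)
    rw [(hmemI x hx).2.2] at h2
    exact h2)
  have e1 : ∀ l ∈ P, ∑ a ∈ A, es (ff sg l) (Wn a L) j = ∑ i ∈ I, c i * js (v i) l := by
    intro l _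
    rw [hI, sum_sigma, hc, hv]
    apply sum_congr rfl
    intro a _
    rw [es_ff]
  rw [sum_congr rfl fun l hl => by rw [e1 l hl]]
  refine h1.trans (mul_le_mul_of_nonneg_left ?_ hB)
  have hcb : ∀ x ∈ I, |c x| = 1 := by
    intro x hx
    rw [hc]
    simp only
    rw [abs_prod, prod_congr rfl (fun n _ => hsg n), prod_const_one]
  have h2 : ∑ i ∈ I, ∑ i' ∈ I, |c i| * |c i'| * sqi (v i * v i') =
      ∑ i ∈ I, ∑ i' ∈ I, sqi (v i * v i') := by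
    refine sum_congr rfl fun i hi => sum_congr rfl fun i' hi' => ?_
    rw [hcb i hi, hcb i' hi', one_mul, one_mul]
  rw [h2]
  refine le_of_eq ?_
  rw [hI, sum_sigma]
  apply sum_congr rfl
  intro a _
  simp only [sum_sigma]
  unfold CC
  rw [sum_comm]
  apply sum_congr rfl
  intro b _
  rw [hv]

theorem blk : BLK := by
  intro sg hsg r L Q M B hB hls hL hLr hM P hP
  obtain ⟨G, hG⟩ : ∃ G : ℕ → ℝ, G = fun t => ∑ b ∈ Ico (2 ^ r) (2 * 2 ^ r), CC 2 L (2 ^ r + t) b :=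
    ⟨_, rfl⟩
  have hGsum : ∑ t ∈ range (2 ^ r), G t =
      ∑ a ∈ Ico (2 ^ r) (2 * 2 ^ r), ∑ b ∈ Ico (2 ^ r) (2 * 2 ^ r), CC 2 L a b := by
    rw [sum_Ico_eq_sum_range (fun a => ∑ b ∈ Ico (2 ^ r) (2 * 2 ^ r), CC 2 L a b),
      show 2 * 2 ^ r - 2 ^ r = 2 ^ r by omega, hG]
  have hblock : ∀ k i : ℕ, k ≤ r → i < 2 ^ (r - k) →
      ∑ l ∈ P, (∑ j ∈ range (2 ^ k), es (ff sg l) (Wn (2 ^ r + (i * 2 ^ k + j)) L) 2) ^ 2 ≤
      B * ∑ j ∈ range (2 ^ k), G (i * 2 ^ k + j) := by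
    intro k i hk hi
    have htot : i * 2 ^ k + 2 ^ k ≤ 2 ^ r := by
      calc i * 2 ^ k + 2 ^ k = (i + 1) * 2 ^ k := by ring
        _ ≤ 2 ^ (r - k) * 2 ^ k := Nat.mul_le_mul_right _ hi
        _ = 2 ^ r := by rw [← pow_add]; congr 1; omega
    obtain ⟨A, hA⟩ : ∃ A : Finset ℕ, A = (range (2 ^ k)).image (fun j => 2 ^ r + (i * 2 ^ k + j)) :=
      ⟨_, rfl⟩
    have hinj : Set.InjOn (fun j => 2 ^ r + (i * 2 ^ k + j)) (range (2 ^ k) : Finset ℕ) := by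
      intro x _ y _ h
      simp only at h
      omega
    have hAs : A ⊆ Ico (2 ^ r) (2 * 2 ^ r) := by
      intro a ha
      rw [hA, mem_image] at ha
      obtain ⟨j, hj, rfl⟩ := ha
      rw [mem_range] at hj
      rw [mem_Ico]
      omega
    have h1 := blk_one sg hsg (2 ^ r) L 2 Q M B hB hls (Nat.one_le_two_pow) hLr hM P hP A hAs
    have e1 : ∀ l, ∑ a ∈ A, es (ff sg l) (Wn a L) 2 =
        ∑ j ∈ range (2 ^ k), es (ff sg l) (Wn (2 ^ r + (i * 2 ^ k + j)) L) 2 := by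
      intro l
      rw [hA, sum_image hinj]
    simp only [e1] at h1
    refine h1.trans (mul_le_mul_of_nonneg_left ?_ hB)
    have h2 : ∑ a ∈ A, ∑ b ∈ A, CC 2 L a b ≤ ∑ a ∈ A, ∑ b ∈ Ico (2 ^ r) (2 * 2 ^ r), CC 2 L a b :=
      sum_le_sum fun a _ => sum_le_sum_of_subset_of_nonneg hAs fun b _ _ => CC_nonneg _ _ _ _
    refine h2.trans (le_of_eq ?_)
    rw [hA, sum_image hinj, hG]
  unfold Qd2
  rw [sum_comm]
  have h3 : ∀ k ∈ range (r + 1), ∑ l ∈ P, ∑ i ∈ range (2 ^ (r - k)),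
      (∑ j ∈ range (2 ^ k), es (ff sg l) (Wn (2 ^ r + (i * 2 ^ k + j)) L) 2) ^ 2 ≤
      B * ∑ a ∈ Ico (2 ^ r) (2 * 2 ^ r), ∑ b ∈ Ico (2 ^ r) (2 * 2 ^ r), CC 2 L a b := by
    intro k hk
    rw [mem_range] at hk
    rw [sum_comm]
    refine (sum_le_sum fun i hi => hblock k i (by omega) (mem_range.mp hi)).trans ?_
    rw [← mul_sum, sum_blocks, ← pow_add, show r - k + k = r by omega, hGsum]
  refine (sum_le_sum h3).trans (le_of_eq ?_)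
  rw [sum_const, card_range, nsmul_eq_mul]
  push_cast
  rfl

end Pool.Agent.L0h66.VR
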