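import Pool.Agent.L0h54.VR.Stm

set_option autoImplicit false

/-! Module CONT: from the sums over the window positions to the integral of the mean square. -/

namespace Pool.Agent.L0h66.VR

open Finset MeasureTheory Filter
open scoped Classical
open Pool.Agent.L0h54.VR
open Pool.Agent.L0h54.RM (Wn mem_Wn card_Wn_le)
open Pool.Agent.L0h54.GC (SW Mo Mo_near measurable_Mo)

lemma ii_fl (g : ℕ → ℝ) (K : ℝ) (hg : ∀ a, |g a| ≤ K) (A B : ℝ) :
    IntervalIntegrable (fun y : ℝ => g ⌊y⌋₊) volume A B := by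
  have hm : Measurable (fun y : ℝ => g ⌊y⌋₊) := (Measurable.of_discrete (f := g)).comp
    Nat.measurable_floor
  refine (intervalIntegrable_const (c := K)).mono_fun hm.aestronglyMeasurable ?_
  refine Eventually.of_forall fun y => ?_
  show ‖g ⌊y⌋₊‖ ≤ ‖K‖
  rw [Real.norm_eq_abs, Real.norm_eq_abs]
  exact (hg ⌊y⌋₊).trans (le_abs_self K)

lemma int_fl (g : ℕ → ℝ) (K : ℝ) (hg : ∀ a, |g a| ≤ K) (N N' : ℕ) (hN : N ≤ N') :
    ∫ y in (N:ℝ)..(N' : ℝ), g ⌊y⌋₊ = ∑ a ∈ Ico N N', g a := by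
  have h1 := intervalIntegral.sum_integral_adjacent_intervals_Ico (a := fun k : ℕ => (k : ℝ))
    (f := fun y : ℝ => g ⌊y⌋₊) (μ := volume) hN
    (fun k _ => ii_fl g K hg _ _)
  rw [← h1]
  apply sum_congr rfl
  intro k _
  have h2 : ∫ y in (k:ℝ)..((k + 1 : ℕ) : ℝ), g ⌊y⌋₊ = ∫ y in (k:ℝ)..((k + 1 : ℕ) : ℝ), g k := by
    rw [intervalIntegral.integral_of_le (by push_cast; linarith),
      intervalIntegral.integral_of_le (by push_cast; linarith), ← integral_Ico_eq_integral_Ioc,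
      ← integral_Ico_eq_integral_Ioc]
    apply setIntegral_congr_fun measurableSet_Ico
    intro y hy
    simp only
    congr 1
    rw [Nat.floor_eq_iff (by exact (Nat.cast_nonneg k).trans hy.1)]
    refine ⟨hy.1, ?_⟩
    have := hy.2
    push_cast at this
    exact this
  rw [h2, intervalIntegral.integral_const]
  push_cast
  rw [add_sub_cancel_left, one_smul]

lemma diff_fl (g : ℕ → ℝ) (K : ℝ) (hg : ∀ a, |g a| ≤ K) (A B A' B' : ℝ) :
    |(∫ y in A..B, g ⌊y⌋₊) - ∫ y in A'..B', g ⌊y⌋₊| ≤ K * |A - A'| + K * |B - B'| := by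
  rw [intervalIntegral.integral_interval_sub_interval_comm (ii_fl g K hg _ _)
    (ii_fl g K hg _ _) (ii_fl g K hg _ _)]
  refine (abs_sub _ _).trans ?_
  have h1 := intervalIntegral.norm_integral_le_of_norm_le_const (a := A) (b := A') (C := K)
    (f := fun y : ℝ => g ⌊y⌋₊) (fun x _ => hg _)
  have h2 := intervalIntegral.norm_integral_le_of_norm_le_const (a := B) (b := B') (C := K)
    (f := fun y : ℝ => g ⌊y⌋₊) (fun x _ => hg _)
  rw [Real.norm_eq_abs] at h1 h2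
  rw [abs_sub_comm A A', abs_sub_comm B B']
  linarith

/-- gluing dyadic blocks -/
lemma glue (f : ℕ → ℝ) (r L : ℕ) (τ : ℝ) (hτ : 0 ≤ τ) : ∀ (j A A' : ℕ), 2 ^ r ≤ A → A ≤ A' →
    A' ≤ 2 ^ (r + j) → (∀ i, 2 ^ (r + i) < A' → Good f (r + i) L τ) →
    |∑ a ∈ Ico A A', SW f a L ^ 2 - 6 / Real.pi ^ 2 * L * ((A':ℝ) - A)| ≤
      τ * L * 2 ^ r * (2 ^ j - 1) := by
  intro j
  induction j with
  | zero =>
    intro A A' h1 h2 h3 _
    have : A' = A := by
      rw [add_zero] at h3; omega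
    subst this
    simp
  | succ j ih =>
    intro A A' h1 h2 h3 h4
    have hL0 : 0 ≤ τ * L * 2 ^ r := by positivity
    have h2j : (1:ℝ) ≤ 2 ^ j := one_le_pow₀ (by norm_num)
    rcases Nat.lt_or_ge (2 ^ (r + j)) A' with h5 | h5
    · have hg := h4 j h5
      rcases Nat.lt_or_ge A (2 ^ (r + j)) with h6 | h6
      · have k1 := ih A (2 ^ (r + j)) h1 h6.le le_rfl (fun i hi => h4 i (hi.trans h5))
        have k2 := hg (2 ^ (r + j)) A' le_rfl h5.le (by rw [← add_assoc] at h3; exact h3)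
        have e1 : ∑ a ∈ Ico A A', SW f a L ^ 2 = ∑ a ∈ Ico A (2 ^ (r + j)), SW f a L ^ 2 +
            ∑ a ∈ Ico (2 ^ (r + j)) A', SW f a L ^ 2 := (sum_Ico_consecutive _ h6.le h5.le).symm
        have e2 : ∑ a ∈ Ico A A', SW f a L ^ 2 - 6 / Real.pi ^ 2 * L * ((A':ℝ) - A) =
            (∑ a ∈ Ico A (2 ^ (r + j)), SW f a L ^ 2 -
              6 / Real.pi ^ 2 * L * (((2 ^ (r + j) : ℕ):ℝ) - A)) +
            (∑ a ∈ Ico (2 ^ (r + j)) A', SW f a L ^ 2 -
              6 / Real.pi ^ 2 * L * ((A':ℝ) - ((2 ^ (r + j) : ℕ):ℝ))) := by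
          rw [e1]; ring
        rw [e2]
        refine (abs_add_le _ _).trans ((add_le_add k1 k2).trans (le_of_eq ?_))
        rw [pow_add, pow_succ]
        ring
      · have k2 := hg A A' h6 h2 (by rw [← add_assoc] at h3; exact h3)
        refine k2.trans ?_
        rw [pow_add, pow_succ]
        nlinarith
    · have k1 := ih A A' h1 h2 h5 h4
      refine k1.trans (mul_le_mul_of_nonneg_left ?_ hL0)
      rw [pow_succ]
      linarith

theorem cont : CONT := by
  refine ⟨60, by norm_num, ?_⟩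
  intro f hf0 hf1 X H τ hH hX hτ0 hτ1 hgood
  obtain ⟨L, hL⟩ : ∃ L, L = ⌊H⌋₊ := ⟨_, rfl⟩
  rw [← hL] at hgood
  have L1 : (L : ℝ) ≤ H := by rw [hL]; exact Nat.floor_le (by linarith)
  have L2 : H < L + 1 := by rw [hL]; exact Nat.lt_floor_add_one _
  have hL0 : (0:ℝ) ≤ L := Nat.cast_nonneg _
  have hX0 : 0 < X := by linarith
  have hH0 : 0 < H := by linarith
  obtain ⟨c, hc⟩ : ∃ c : ℝ, c = 6 / Real.pi ^ 2 := ⟨_, rfl⟩
  have hc0 : 0 ≤ c := by rw [hc]; positivity
  have hc1 : c ≤ 1 := by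
    rw [hc, div_le_one (by positivity)]
    nlinarith [Real.pi_gt_three]
  obtain ⟨g, hg⟩ : ∃ g : ℕ → ℝ, g = fun a => SW f a L ^ 2 := ⟨_, rfl⟩
  have hT : ∀ a, |SW f a L| ≤ L := by
    intro a
    unfold SW
    refine (abs_sum_le_sum_abs _ _).trans ((sum_le_sum fun n _ => hf1 n).trans ?_)
    rw [sum_const, nsmul_eq_mul, mul_one]
    exact_mod_cast card_Wn_le a L
  have hgK : ∀ a, |g a| ≤ (L:ℝ) ^ 2 := by
    intro a
    rw [hg]
    simp only
    rw [abs_pow]
    exact pow_le_pow_left₀ (abs_nonneg _) (hT a) 2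
  obtain ⟨A, hA⟩ : ∃ A, A = ⌊X - H / 2⌋₊ := ⟨_, rfl⟩
  obtain ⟨A', hA'⟩ : ∃ A', A' = ⌊2 * X - H / 2⌋₊ := ⟨_, rfl⟩
  have A1 : (A : ℝ) ≤ X - H / 2 := by rw [hA]; exact Nat.floor_le (by linarith)
  have A2 : X - H / 2 < A + 1 := by rw [hA]; exact Nat.lt_floor_add_one _
  have A3 : (A' : ℝ) ≤ 2 * X - H / 2 := by rw [hA']; exact Nat.floor_le (by linarith)
  have A4 : 2 * X - H / 2 < A' + 1 := by rw [hA']; exact Nat.lt_floor_add_one _
  have hAA : A ≤ A' := by rw [hA, hA']; exact Nat.floor_le_floor (by linarith)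
  -- the dyadic blocks
  obtain ⟨r, hr⟩ : ∃ r, r = Nat.log 2 A := ⟨_, rfl⟩
  have hApos : A ≠ 0 := by
    rintro rfl
    push_cast at A2
    linarith
  have r1 : 2 ^ r ≤ A := by rw [hr]; exact Nat.pow_log_le_self 2 hApos
  have r2 : A < 2 ^ (r + 1) := by rw [hr]; exact Nat.lt_pow_succ_log_self (by norm_num) A
  have r1' : (2:ℝ) ^ r ≤ A := by exact_mod_cast r1
  have r2' : (A:ℝ) < 2 ^ r * 2 := by
    have : (A:ℝ) < 2 ^ (r + 1) := by exact_mod_cast r2
    rwa [pow_succ] at this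
  have hA3 : A' ≤ 2 ^ (r + 3) := by
    have : (A':ℝ) ≤ 2 ^ (r + 3) := by
      rw [pow_add]
      linarith
    exact_mod_cast this
  have hgl := glue f r L τ hτ0 3 A A' r1 hAA hA3 (by
    intro i hi
    apply hgood
    · have h1 : (2:ℝ) ^ r ≤ 2 ^ (r + i) := pow_le_pow_right₀ (by norm_num) (by omega)
      linarith
    · have h1 : ((2 ^ (r + i) : ℕ):ℝ) < A' := by exact_mod_cast hi
      push_cast at h1
      linarith)
  rw [← hc] at hgl ⊢
  have hgl' : |∑ a ∈ Ico A A', g a - c * L * ((A':ℝ) - A)| ≤ 7 * τ * H * X := by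
    rw [hg]
    refine hgl.trans ?_
    have h1 : τ * L * 2 ^ r * (2 ^ 3 - 1) = 7 * τ * (L * 2 ^ r) := by ring
    rw [h1, mul_assoc (7 * τ)]
    apply mul_le_mul_of_nonneg_left _ (by positivity)
    apply mul_le_mul L1 _ (by positivity) hH0.le
    linarith
  -- the integral of `g`
  obtain ⟨I2, hI2⟩ : ∃ I2 : ℝ, I2 = ∫ x in X..(2 * X), g ⌊x - H / 2⌋₊ := ⟨_, rfl⟩
  have hcomp : I2 = ∫ y in (X - H / 2)..(2 * X - H / 2), g ⌊y⌋₊ := by
    rw [hI2]
    exact intervalIntegral.integral_comp_sub_right (fun y => g ⌊y⌋₊) (H / 2)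
  have hd := diff_fl g ((L:ℝ) ^ 2) hgK (X - H / 2) (2 * X - H / 2) A A'
  rw [← hcomp, int_fl g ((L:ℝ) ^ 2) hgK A A' hAA] at hd
  have hLH : (L:ℝ) ^ 2 ≤ H ^ 2 := pow_le_pow_left₀ hL0 L1 2
  have hd' : |I2 - ∑ a ∈ Ico A A', g a| ≤ 2 * H ^ 2 := by
    refine hd.trans ?_
    have b1 : |X - H / 2 - A| ≤ 1 := by rw [abs_le]; constructor <;> linarith
    have b2 : |2 * X - H / 2 - A'| ≤ 1 := by rw [abs_le]; constructor <;> linarith
    have b3 : (L:ℝ) ^ 2 * |X - H / 2 - A| ≤ H ^ 2 * 1 :=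
      mul_le_mul hLH b1 (abs_nonneg _) (by positivity)
    have b4 : (L:ℝ) ^ 2 * |2 * X - H / 2 - A'| ≤ H ^ 2 * 1 :=
      mul_le_mul hLH b2 (abs_nonneg _) (by positivity)
    linarith
  have hm1 : |c * L * ((A':ℝ) - A) - c * H * X| ≤ H + X := by
    have e : c * L * ((A':ℝ) - A) - c * H * X = c * L * ((A':ℝ) - A - X) - c * (H - L) * X := by ring
    rw [e]
    refine (abs_sub _ _).trans ?_
    rw [abs_mul (c * L) _, abs_mul (c * (H - L)) X, abs_of_nonneg (mul_nonneg hc0 hL0),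
      abs_of_pos hX0, abs_of_nonneg (mul_nonneg hc0 (by linarith : (0:ℝ) ≤ H - L))]
    have b1 : |(A':ℝ) - A - X| ≤ 1 := by rw [abs_le]; constructor <;> linarith
    have b2 : c * L * |(A':ℝ) - A - X| ≤ H * 1 := by
      apply mul_le_mul _ b1 (abs_nonneg _) hH0.le
      nlinarith
    have b3 : c * (H - L) * X ≤ 1 * X := by
      apply mul_le_mul_of_nonneg_right _ hX0.le
      nlinarith
    linarith
  have hI2b : |I2 - c * H * X| ≤ 7 * τ * H * X + 2 * H ^ 2 + H + X := by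
    have e : I2 - c * H * X = (I2 - ∑ a ∈ Ico A A', g a) +
        (∑ a ∈ Ico A A', g a - c * L * ((A':ℝ) - A)) + (c * L * ((A':ℝ) - A) - c * H * X) := by ring
    rw [e]
    refine (abs_add_le _ _).trans ?_
    have := (abs_add_le (I2 - ∑ a ∈ Ico A A', g a)
      (∑ a ∈ Ico A A', g a - c * L * ((A':ℝ) - A)))
    linarith
  have hHX : 0 < H * X := by positivity
  have hH2X : 4 * H ^ 2 ≤ H * X := by nlinarith
  have hI2u : I2 ≤ 10 * (H * X) := by
    have h1 := (abs_le.mp hI2b).2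
    have h2 : c * H * X ≤ 1 * (H * X) := by
      rw [mul_assoc]; exact mul_le_mul_of_nonneg_right hc1 hHX.le
    have h3 : 7 * τ * H * X ≤ 7 * (H * X) := by
      have : τ * (H * X) ≤ 1 * (H * X) := mul_le_mul_of_nonneg_right hτ1 hHX.le
      have e : 7 * τ * H * X = 7 * (τ * (H * X)) := by ring
      rw [e]
      linarith
    have h4 : 4 * X ≤ H * X := by nlinarith
    have h5 : 16 * H ≤ H * X := by nlinarith
    linarith
  -- comparison with `Mo`
  obtain ⟨s, hs⟩ : ∃ s, s = Real.sqrt H := ⟨_, rfl⟩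
  have hs2 : s ^ 2 = H := by rw [hs]; exact Real.sq_sqrt hH0.le
  have hs0 : 0 < s := by rw [hs]; positivity
  have hs1 : 1 ≤ s := by
    by_contra h1
    push Not at h1
    have h2 : s ^ 2 < 1 ^ 2 := pow_lt_pow_left₀ h1 hs0.le (by norm_num)
    rw [hs2] at h2
    linarith
  have hpt : ∀ x ∈ Set.Icc X (2 * X), |Mo f H x ^ 2 - g ⌊x - H / 2⌋₊| ≤
      (2 / s) * g ⌊x - H / 2⌋₊ + (2 * s + 4) := by
    intro x hx
    have h1 := Mo_near f hf0 hf1 H x (by linarith) (by linarith [hx.1])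
    rw [← hL] at h1
    rw [hg]
    simp only
    obtain ⟨S, hS⟩ : ∃ S, S = SW f ⌊x - H / 2⌋₊ L := ⟨_, rfl⟩
    rw [← hS] at h1 ⊢
    have e1 : Mo f H x ^ 2 - S ^ 2 = (Mo f H x - S) * ((Mo f H x - S) + 2 * S) := by ring
    rw [e1, abs_mul]
    have h2 : |(Mo f H x - S) + 2 * S| ≤ 2 + 2 * |S| := by
      refine (abs_add_le _ _).trans ?_
      rw [abs_mul, abs_two]
      linarith
    have h3 : |Mo f H x - S| * |(Mo f H x - S) + 2 * S| ≤ 2 * (2 + 2 * |S|) :=
      mul_le_mul h1 h2 (abs_nonneg _) (by norm_num)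
    refine h3.trans ?_
    have h4 : 4 * |S| ≤ (2 / s) * S ^ 2 + 2 * s := by
      have h5 : (2 / s) * S ^ 2 + 2 * s - 4 * |S| = (2 / s) * (|S| - s) ^ 2 := by
        rw [← sq_abs S]
        field_simp
        ring
      have h6 : 0 ≤ (2 / s) * (|S| - s) ^ 2 := by positivity
      linarith
    linarith
  have hiG : IntervalIntegrable (fun x => g ⌊x - H / 2⌋₊) volume X (2 * X) := by
    have hm : Measurable (fun x : ℝ => g ⌊x - H / 2⌋₊) := (Measurable.of_discrete (f := g)).comp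
      (Nat.measurable_floor.comp (measurable_id.sub_const _))
    refine (intervalIntegrable_const (c := (L:ℝ) ^ 2)).mono_fun hm.aestronglyMeasurable ?_
    refine Eventually.of_forall fun y => ?_
    show ‖g ⌊y - H / 2⌋₊‖ ≤ ‖(L:ℝ) ^ 2‖
    rw [Real.norm_eq_abs, Real.norm_eq_abs]
    exact (hgK _).trans (le_abs_self _)
  have hiM : IntervalIntegrable (fun x => Mo f H x ^ 2) volume X (2 * X) := by
    have hm : Measurable (fun x : ℝ => Mo f H x ^ 2) := (measurable_Mo f H).pow_const 2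
    refine (intervalIntegrable_const (c := ((L:ℝ) + 2) ^ 2)).mono_fun hm.aestronglyMeasurable ?_
    rw [Set.uIoc_of_le (by linarith)]
    refine (ae_restrict_iff' measurableSet_Ioc).mpr (Eventually.of_forall fun x hx => ?_)
    show ‖Mo f H x ^ 2‖ ≤ ‖((L:ℝ) + 2) ^ 2‖
    rw [Real.norm_eq_abs, Real.norm_eq_abs, abs_pow, abs_pow]
    apply pow_le_pow_left₀ (abs_nonneg _)
    have h1 := Mo_near f hf0 hf1 H x (by linarith) (by linarith [hx.1])
    rw [← hL] at h1
    have h2 := hT ⌊x - H / 2⌋₊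
    have h3 : |Mo f H x| ≤ |Mo f H x - SW f ⌊x - H / 2⌋₊ L| + |SW f ⌊x - H / 2⌋₊ L| := by
      have := abs_add_le (Mo f H x - SW f ⌊x - H / 2⌋₊ L) (SW f ⌊x - H / 2⌋₊ L)
      rwa [sub_add_cancel] at this
    exact (by linarith : |Mo f H x| ≤ L + 2).trans (le_abs_self _)
  have hMo : |(∫ x in X..2 * X, Mo f H x ^ 2) - I2| ≤ (2 / s) * I2 + (2 * s + 4) * X := by
    rw [hI2, ← intervalIntegral.integral_sub hiM hiG]
    have e1 : (2 / s) * (∫ x in X..(2 * X), g ⌊x - H / 2⌋₊) + (2 * s + 4) * X =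
        ∫ x in X..(2 * X), ((2 / s) * g ⌊x - H / 2⌋₊ + (2 * s + 4)) := by
      rw [intervalIntegral.integral_add (hiG.const_mul _) intervalIntegrable_const,
        intervalIntegral.integral_const_mul, intervalIntegral.integral_const, smul_eq_mul]
      ring
    rw [e1]
    refine (intervalIntegral.abs_integral_le_integral_abs (by linarith)).trans ?_
    apply intervalIntegral.integral_mono_on (by linarith) (hiM.sub hiG).abs
      ((hiG.const_mul _).add intervalIntegrable_const)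
    exact hpt
  -- conclusion
  have hfin : |(∫ x in X..2 * X, Mo f H x ^ 2) - c * H * X| ≤
      (20 / s) * (H * X) + (2 * s + 4) * X + (7 * τ * H * X + 2 * H ^ 2 + H + X) := by
    have e : (∫ x in X..2 * X, Mo f H x ^ 2) - c * H * X =
        ((∫ x in X..2 * X, Mo f H x ^ 2) - I2) + (I2 - c * H * X) := by ring
    rw [e]
    refine (abs_add_le _ _).trans ?_
    have h1 : (2 / s) * I2 ≤ (2 / s) * (10 * (H * X)) :=
      mul_le_mul_of_nonneg_left hI2u (by positivity)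
    have h2 : (2 / s) * (10 * (H * X)) = (20 / s) * (H * X) := by ring
    linarith
  have e : ∫ x in X..2 * X, (Mo f H x ^ 2 - c * H) =
      (∫ x in X..2 * X, Mo f H x ^ 2) - c * H * X := by
    rw [intervalIntegral.integral_sub hiM intervalIntegrable_const,
      intervalIntegral.integral_const, smul_eq_mul]
    ring
  rw [e, abs_mul, abs_of_pos (by positivity : 0 < 1 / X)]
  refine (mul_le_mul_of_nonneg_left hfin (by positivity)).trans ?_
  rw [← hs]
  have e2 : (1 / X) * ((20 / s) * (H * X) + (2 * s + 4) * X + (7 * τ * H * X + 2 * H ^ 2 + H + X)) =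
      (20 / s) * H + (2 * s + 4) + (7 * τ * H + 2 * (H ^ 2 / X) + H / X + 1) := by
    field_simp
  have e3 : 60 * H * (τ + 1 / s + H / X) = 60 * τ * H + 60 * (H / s) + 60 * (H ^ 2 / X) := by
    field_simp
  rw [e2, e3]
  have hHs : H / s = s := by rw [← hs2]; field_simp
  have h20 : (20 / s) * H = 20 * s := by
    rw [← hs2]; field_simp
  have h7 : 0 ≤ τ * H := by positivity
  have h8 : 0 ≤ H ^ 2 / X := by positivity
  have h9 : H / X ≤ H ^ 2 / X := by
    apply div_le_div_of_nonneg_right _ hX0.le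
    nlinarith
  rw [h20, hHs]
  have e4 : 7 * τ * H = 7 * (τ * H) := by ring
  have e5 : 60 * τ * H = 60 * (τ * H) := by ring
  rw [e4, e5]
  linarith

end Pool.Agent.L0h66.VR
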